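import Pool.Agent.H.MP_b32758_al.E

namespace Pool.Agent.Results.MP_b32758_al.NotDomain

open Pool.Agent.H.MP_b32758_al

/-- For every nonzero central element `Ω` of degree two of the Sklyanin algebra `S(α,β,γ)`, the
scalar matrix `Ω` lies in `A = M₂(S)^{K₄}` and the quotient `A/(Ω)` has nonzero zero-divisors. -/
theorem result {k : Type*} [Field k] [IsAlgClosed k] [CharZero k] (α β γ : k)
    (hs : α + β + γ + α * β * γ = 0)
    (hα : α ≠ 0 ∧ α ≠ 1 ∧ α ≠ -1) (hβ : β ≠ 0 ∧ β ≠ 1 ∧ β ≠ -1) (hγ : γ ≠ 0 ∧ γ ≠ 1 ∧ γ ≠ -1)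
    (Ω : S α β γ) (h2 : Ω ∈ S2 α β γ)
    (h0 : Ω ≠ 0) (hc : Ω ∈ Subring.center (S α β γ)) :
    ∃ w : A α β γ, w.1 = Matrix.scalar (Fin 2) Ω ∧ QuotHasZeroDivisors w := by
  obtain ⟨w, hw, a, b, hab, ha, hb⟩ := main hs hα hβ hγ.1 Ω h2 h0
    (fun s => (Subring.mem_center_iff.1 hc s).symm)
  have key : ∀ z : A α β γ, ((z : (TwoSidedIdeal.span {w}).ringCon.Quotient) = 0) ↔
      z ∈ TwoSidedIdeal.span {w} := fun z => by
    rw [← RingCon.coe_zero, RingCon.eq, TwoSidedIdeal.mem_iff]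
  refine ⟨w, hw, (a : A α β γ), (b : A α β γ), fun h => ha ((key a).1 h),
    fun h => hb ((key b).1 h), ?_⟩
  rw [← RingCon.coe_mul, hab, key]
  exact TwoSidedIdeal.subset_span rfl

end Pool.Agent.Results.MP_b32758_al.NotDomain
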